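import Mathlib

/-!
Characters of a commutative ring that is finite over `ℤ` (such as the Hecke algebra acting on the cohomology of
`Y_1(n)`), their conjugates, and the properties of `θ(T_℘)`, `θ(S_℘)` that are known for the nontrivial characters.
-/

namespace Pool.Agent.X298.KS

/-- The conjugates of the character `θ`: the characters with the same kernel (they are the `σ ∘ θ` for the embeddings
`σ` of the field generated by the values of `θ`). -/
def Conj {R : Type} [CommRing R] (θ : R →+* ℂ) : Set (R →+* ℂ) :=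
  {θ' | RingHom.ker θ' = RingHom.ker θ}

/-- The conjugates for which the bound `|θ'(T)| ≤ 2 √N` holds. -/
def Good {R : Type} [CommRing R] (T : R) (N : ℕ) (θ : R →+* ℂ) : Set (R →+* ℂ) :=
  {θ' | θ' ∈ Conj θ ∧ ‖θ' T‖ ≤ 2 * Real.sqrt N}

/-- What is known of a nontrivial character at a prime of norm `N`: `θ(S)` is a root of unity, the complex conjugate
of `θ(T)` is `θ(T)/θ(S)`, and `|θ(T)| ≤ N^(1/2) (N^(7/64) + N^(-7/64))`. -/
structure Known {R : Type} [CommRing R] (T S : R) (N : ℕ) (θ : R →+* ℂ) : Prop where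
  fin : ∃ k : ℕ, 0 < k ∧ θ S ^ k = 1
  unitary : (starRingEnd ℂ) (θ T) * θ S = θ T
  bound : ‖θ T‖ ≤ Real.sqrt N * ((N : ℝ) ^ ((7 : ℝ) / 64) + (N : ℝ) ^ (-((7 : ℝ) / 64)))

end Pool.Agent.X298.KS
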