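import Mathlib
import Pool.Agent.X298.KS.Defs

namespace Pool.Agent.X298.KS

open scoped nonZeroDivisors

attribute [local instance] FractionRing.liftAlgebra in
theorem finite_dim (A : Type) [CommRing A] [IsDomain A] [CharZero A] [Module.Finite ℤ A]
    [CharZero (FractionRing A)] :
    FiniteDimensional ℚ (FractionRing A) := by
  have : Module.IsTorsionFree ℤ A := by
    infer_instance
  have h : FiniteDimensional (FractionRing ℤ) (FractionRing A) := inferInstance
  let e1 : FractionRing ℤ ≃+* ℚ := (FractionRing.algEquiv ℤ ℚ).toRingEquiv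
  refine Module.Finite.of_equiv_equiv e1 (RingEquiv.refl (FractionRing A)) ?_
  apply IsLocalization.ringHom_ext (nonZeroDivisors ℤ)
  exact Subsingleton.elim _ _

/-- The norm of a nonzero algebraic integer. -/
theorem core {R : Type} [CommRing R] [Module.Finite ℤ R] (θ : R →+* ℂ) :
    ∃ s : Finset (R →+* ℂ), (∀ θ', θ' ∈ s ↔ θ' ∈ Conj θ) ∧
      (∀ z : R, θ z ≠ 0 → 1 ≤ ∏ θ' ∈ s, ‖θ' z‖) ∧
      (∀ z : R, ∃ q : ℚ, ∑ θ' ∈ s, θ' z = q) := by
  classical
  let I := RingHom.ker θ
  have hI : I.IsPrime := RingHom.ker_isPrime θ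
  let A := R ⧸ I
  have : IsDomain A := Ideal.Quotient.isDomain I
  have hinj : Function.Injective (RingHom.kerLift θ) := RingHom.kerLift_injective θ
  have : CharZero A := RingHom.charZero (RingHom.kerLift θ)
  have : Module.Finite ℤ A := inferInstance
  let F := FractionRing A
  have : CharZero F := charZero_of_injective_algebraMap (IsFractionRing.injective A F)
  have : FiniteDimensional ℚ F := finite_dim A
  have : NumberField F := { to_charZero := inferInstance, to_finiteDimensional := inferInstance }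
  let φ : R →+* F := (algebraMap A F).comp (Ideal.Quotient.mk I)
  have hφ : ∀ z, φ z = 0 ↔ z ∈ I := by
    intro z
    simp only [φ, RingHom.comp_apply]
    rw [map_eq_zero_iff _ (IsFractionRing.injective A F)]
    exact Ideal.Quotient.eq_zero_iff_mem
  let s : Finset (R →+* ℂ) := Finset.univ.image (fun τ : F →ₐ[ℚ] ℂ => (τ : F →+* ℂ).comp φ)
  have hs : ∀ θ', θ' ∈ s ↔ θ' ∈ Conj θ := by
    intro θ'
    simp only [s, Finset.mem_image, Finset.mem_univ, true_and, Conj, Set.mem_ofPred_eq]
    constructor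
    · rintro ⟨τ, rfl⟩
      ext z
      rw [RingHom.mem_ker, RingHom.comp_apply]
      rw [map_eq_zero_iff _ (RingHom.injective (τ : F →+* ℂ)), hφ]
    · intro h
      have hlift : ∀ a ∈ I, θ' a = 0 := fun a ha => by
        have : a ∈ RingHom.ker θ' := by rw [h]; exact ha
        exact this
      let g : A →+* ℂ := Ideal.Quotient.lift I θ' hlift
      have hg : Function.Injective g := by
        apply RingHom.lift_injective_of_ker_le_ideal
        rw [h]
      let τ : F →+* ℂ := IsFractionRing.lift hg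
      refine ⟨τ.toRatAlgHom, ?_⟩
      ext z
      simp only [RingHom.comp_apply, φ]
      have : τ (algebraMap A F (Ideal.Quotient.mk I z)) = g (Ideal.Quotient.mk I z) :=
        IsFractionRing.lift_algebraMap hg _
      calc _ = τ (algebraMap A F (Ideal.Quotient.mk I z)) := rfl
        _ = g (Ideal.Quotient.mk I z) := this
        _ = θ' z := Ideal.Quotient.lift_mk I θ' hlift
  have hinj2 : Function.Injective (fun τ : F →ₐ[ℚ] ℂ => (τ : F →+* ℂ).comp φ) := by
    intro τ τ' h
    have h2 : ((τ : F →+* ℂ).comp (algebraMap A F)) = ((τ' : F →+* ℂ).comp (algebraMap A F)) := by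
      apply Ideal.Quotient.ringHom_ext
      exact h
    have h3 : (τ : F →+* ℂ) = (τ' : F →+* ℂ) := IsLocalization.ringHom_ext A⁰ h2
    ext x
    exact RingHom.congr_fun h3 x
  refine ⟨s, hs, ?_, ?_⟩
  · intro z hz
    have hprod : ∏ θ' ∈ s, ‖θ' z‖ = ‖((Algebra.norm ℚ (φ z) : ℚ) : ℂ)‖ := by
      have h1 := Algebra.norm_eq_prod_embeddings ℚ ℂ (φ z)
      rw [show ((Algebra.norm ℚ (φ z) : ℚ) : ℂ) = algebraMap ℚ ℂ (Algebra.norm ℚ (φ z)) from rfl, h1,
        norm_prod]
      rw [Finset.prod_image (fun a _ b _ h => hinj2 h)]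
      rfl
    rw [hprod]
    have hint : IsIntegral ℤ (φ z) := by
      have hz : IsIntegral ℤ z := Algebra.IsIntegral.isIntegral z
      obtain ⟨p, hp, hpz⟩ := hz
      refine ⟨p, hp, ?_⟩
      have := congrArg φ hpz
      rw [Polynomial.hom_eval₂, map_zero] at this
      rw [← this]
      congr 1
    have : @IsScalarTower ℤ ℚ F Algebra.toSMul Algebra.toSMul Algebra.toSMul :=
      IsScalarTower.of_algebraMap_eq' (Subsingleton.elim _ _)
    obtain ⟨n, hn⟩ := IsIntegrallyClosed.isIntegral_iff.1 (Algebra.isIntegral_norm ℚ hint)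
    have hne : Algebra.norm ℚ (φ z) ≠ 0 := by
      rw [Algebra.norm_ne_zero_iff]
      intro h0
      rw [hφ] at h0
      exact hz h0
    rw [← hn] at hne ⊢
    have hn0 : n ≠ 0 := by
      rintro rfl
      simp at hne
    simp only [eq_intCast, Rat.cast_intCast, Complex.norm_intCast]
    have : (1 : ℤ) ≤ |n| := Int.one_le_abs hn0
    exact_mod_cast this
  · intro z
    refine ⟨Algebra.trace ℚ F (φ z), ?_⟩
    have h1 := trace_eq_sum_embeddings (K := ℚ) (L := F) ℂ (x := φ z)
    rw [show ((Algebra.trace ℚ F (φ z) : ℚ) : ℂ) = algebraMap ℚ ℂ (Algebra.trace ℚ F (φ z)) from rfl, h1]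
    rw [Finset.sum_image (fun a _ b _ h => hinj2 h)]
    rfl

end Pool.Agent.X298.KS
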