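import Mathlib
import Pool.Agent.X298.KS.Core

namespace Pool.Agent.X298.KS

/-- From the exponent `7/64` to a rational bound. -/
theorem ks_le {N : ℕ} (hN : 1 ≤ N) {q ε x : ℝ} (hq : 1 ≤ q) (hq64 : (N : ℝ) ^ 7 ≤ q ^ 64)
    (hε : (N : ℝ) * (q - 1 / q) ^ 2 ≤ ε) (hx0 : 0 ≤ x)
    (hx : x ≤ Real.sqrt N * ((N : ℝ) ^ ((7 : ℝ) / 64) + (N : ℝ) ^ (-((7 : ℝ) / 64)))) :
    x ^ 2 ≤ 4 * N + ε := by
  have hN0 : (0 : ℝ) < N := by exact_mod_cast hN
  set y : ℝ := (N : ℝ) ^ ((7 : ℝ) / 64) with hy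
  have hy1 : 1 ≤ y := by
    apply Real.one_le_rpow
    · exact_mod_cast hN
    · norm_num
  have hy64 : y ^ 64 = (N : ℝ) ^ 7 := by
    rw [hy, ← Real.rpow_natCast, ← Real.rpow_mul hN0.le, ← Real.rpow_natCast]
    norm_num
  have hyinv : (N : ℝ) ^ (-((7 : ℝ) / 64)) = 1 / y := by
    rw [Real.rpow_neg hN0.le, one_div]
  rw [hyinv] at hx
  have hyq : y ≤ q := by
    have h1 : y ^ 64 ≤ q ^ 64 := by rw [hy64]; exact hq64
    exact (pow_le_pow_iff_left₀ (by linarith) (by linarith) (by norm_num)).1 h1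
  have h0 : 0 ≤ y - 1 / y := by
    have : 1 / y ≤ 1 := by
      rw [div_le_one (by linarith)]; exact hy1
    linarith
  have h1 : y - 1 / y ≤ q - 1 / q := by
    have : 1 / q ≤ 1 / y := one_div_le_one_div_of_le (by linarith) hyq
    linarith
  have h2 : (y - 1 / y) ^ 2 ≤ (q - 1 / q) ^ 2 := pow_le_pow_left₀ h0 h1 2
  have h3 : x ^ 2 ≤ (Real.sqrt N * (y + 1 / y)) ^ 2 := pow_le_pow_left₀ hx0 hx 2
  have h4 : (Real.sqrt N * (y + 1 / y)) ^ 2 = 4 * N + N * (y - 1 / y) ^ 2 := by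
    rw [mul_pow, Real.sq_sqrt hN0.le]
    have hyne : y ≠ 0 := by linarith
    field_simp
    ring
  have h5 : (N : ℝ) * (y - 1 / y) ^ 2 ≤ N * (q - 1 / q) ^ 2 := by
    exact mul_le_mul_of_nonneg_left h2 hN0.le
  linarith

/-- Counting. -/
theorem count_le {c C g b : ℕ} {M δ : ℝ} (hM : 1 ≤ M) (hδ0 : 0 < δ) (hδ1 : δ ≤ 1)
    (hlt : M ^ c * δ ^ (C - c) < 1) (h1 : 1 ≤ M ^ g * δ ^ b) : c * (g + b) ≤ C * g := by
  by_contra hcon
  push Not at hcon
  have hm : 0 < g + b := by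
    rcases Nat.eq_zero_or_pos (g + b) with h | h
    · rw [h] at hcon; simp at hcon
    · exact h
  have hb : (C - c) * (g + b) ≤ C * b := by
    have h3 : (C - c) * (g + b) = C * (g + b) - c * (g + b) := Nat.sub_mul _ _ _
    rw [h3]
    have h4 : C * (g + b) = C * g + C * b := by ring
    omega
  have h5 : (M ^ g * δ ^ b) ^ C ≤ (M ^ c * δ ^ (C - c)) ^ (g + b) := by
    rw [mul_pow, mul_pow, ← pow_mul, ← pow_mul, ← pow_mul, ← pow_mul]
    apply mul_le_mul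
    · apply pow_le_pow_right₀ hM
      rw [mul_comm g C]; exact hcon.le
    · rw [mul_comm b C]
      exact pow_le_pow_of_le_one hδ0.le hδ1 hb
    · positivity
    · positivity
  have h6 : (M ^ c * δ ^ (C - c)) ^ (g + b) < 1 := by
    apply pow_lt_one₀ (by positivity) hlt (by omega)
  have h7 : (1 : ℝ) ≤ (M ^ g * δ ^ b) ^ C := one_le_pow₀ h1
  linarith

theorem prod_le (ι : Type) (s : Finset ι) (f : ι → ℝ) (P : ι → Prop) [DecidablePred P] {M δ : ℝ}
    (hf : ∀ i ∈ s, 0 ≤ f i) (hM : ∀ i ∈ s, P i → f i ≤ M) (hδ : ∀ i ∈ s, ¬ P i → f i ≤ δ) :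
    ∏ i ∈ s, f i ≤ M ^ (s.filter P).card * δ ^ (s.filter (fun i => ¬ P i)).card := by
  rw [← Finset.prod_filter_mul_prod_filter_not s P]
  rw [← Finset.prod_const, ← Finset.prod_const]
  apply mul_le_mul
  · apply Finset.prod_le_prod
    · intro i hi; exact hf i (Finset.mem_filter.1 hi).1
    · intro i hi; exact hM i (Finset.mem_filter.1 hi).1 (Finset.mem_filter.1 hi).2
  · apply Finset.prod_le_prod
    · intro i hi; exact hf i (Finset.mem_filter.1 hi).1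
    · intro i hi; exact hδ i (Finset.mem_filter.1 hi).1 (Finset.mem_filter.1 hi).2
  · apply Finset.prod_nonneg
    intro i hi; exact hf i (Finset.mem_filter.1 hi).1
  · apply Finset.prod_nonneg
    intro i hi
    have := (Finset.mem_filter.1 hi)
    exact (hf i this.1).trans (hM i this.1 this.2)

theorem norm_le_iff {x : ℝ} {N : ℕ} (hx : 0 ≤ x) : x ≤ 2 * Real.sqrt N ↔ x ^ 2 ≤ 4 * N := by
  have h : (2 * Real.sqrt N) ^ 2 = 4 * N := by
    rw [mul_pow, Real.sq_sqrt (Nat.cast_nonneg N)]; norm_num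
  rw [← h]
  exact (pow_le_pow_iff_left₀ hx (by positivity) (by norm_num)).symm

/-- The element `T² S^(k-1)` of the Hecke ring. -/
theorem exists_elt {R : Type} [CommRing R] {T S : R} {N : ℕ} {θ : R →+* ℂ}
    (h : ∀ θ' ∈ Conj θ, Known T S N θ') :
    ∃ t : R, ∀ θ' ∈ Conj θ, θ' t = ((‖θ' T‖ ^ 2 : ℝ) : ℂ) := by
  obtain ⟨k, hk, hk1⟩ := (h θ rfl).fin
  refine ⟨T ^ 2 * S ^ (k - 1), fun θ' hθ' => ?_⟩
  have hS : θ' S ^ k = 1 := by
    have h1 : S ^ k - 1 ∈ RingHom.ker θ := by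
      rw [RingHom.mem_ker, map_sub, map_pow, hk1, map_one, sub_self]
    have hker : RingHom.ker θ' = RingHom.ker θ := hθ'
    rw [← hker, RingHom.mem_ker, map_sub, map_pow, map_one] at h1
    exact sub_eq_zero.1 h1
  have hu := (h θ' hθ').unitary
  have h2 : (starRingEnd ℂ) (θ' T) = θ' T * θ' S ^ (k - 1) := by
    calc (starRingEnd ℂ) (θ' T) = (starRingEnd ℂ) (θ' T) * θ' S ^ k := by rw [hS, mul_one]
      _ = ((starRingEnd ℂ) (θ' T) * θ' S) * θ' S ^ (k - 1) := by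
          rw [mul_assoc, ← pow_succ', Nat.sub_add_cancel hk]
      _ = θ' T * θ' S ^ (k - 1) := by rw [hu]
  rw [map_mul, map_pow, map_pow, sq, mul_assoc, ← h2, Complex.mul_conj, Complex.normSq_eq_norm_sq]

/-- The counting theorem for a test element `z = p(|θ(T)|² - 4N)`. -/
theorem good_of {R : Type} [CommRing R] [Module.Finite ℤ R] {T S : R} {N : ℕ} {θ : R →+* ℂ}
    (hN : 1 ≤ N) (h : ∀ θ' ∈ Conj θ, Known T S N θ') {q ε : ℝ} (hq : 1 ≤ q) (hq64 : (N : ℝ) ^ 7 ≤ q ^ 64)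
    (hε : (N : ℝ) * (q - 1 / q) ^ 2 ≤ ε) (p : ℝ → ℝ) (P : Polynomial ℤ)
    (hp : ∀ u : ℝ, Polynomial.aeval u P = p u)
    {M δ : ℝ} {c C : ℕ} (hM1 : 1 ≤ M) (hδ0 : 0 < δ) (hδ1 : δ ≤ 1) (hcC : c ≤ C)
    (hlt : M ^ c * δ ^ (C - c) < 1)
    (hM : ∀ u : ℝ, -(4 * N) ≤ u → u ≤ 0 → |p u| ≤ M) (hδ : ∀ u : ℝ, 0 < u → u ≤ ε → |p u| ≤ δ)
    (hne : ‖θ T‖ ^ 2 ≠ 4 * N → p (‖θ T‖ ^ 2 - 4 * N) ≠ 0) :
    (Conj θ).Finite ∧ c * (Conj θ).ncard ≤ C * (Good T N θ).ncard := by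
  classical
  obtain ⟨s, hs, hprod, -⟩ := core θ
  have hsC : Conj θ = ↑s := by ext θ'; exact (hs θ').symm
  have hsG : Good T N θ = ↑(s.filter (fun θ' => ‖θ' T‖ ≤ 2 * Real.sqrt N)) := by
    ext θ'
    simp only [Good, Set.mem_ofPred_eq, Finset.coe_filter, hs]
  refine ⟨by rw [hsC]; exact s.finite_toSet, ?_⟩
  rw [hsC, hsG, Set.ncard_coe_finset, Set.ncard_coe_finset]
  obtain ⟨t, ht⟩ := exists_elt h
  have hker : ∀ θ' ∈ Conj θ, ∀ z : R, θ z = 0 ↔ θ' z = 0 := by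
    intro θ' hθ' z
    have : RingHom.ker θ' = RingHom.ker θ := hθ'
    rw [← RingHom.mem_ker, ← this, RingHom.mem_ker]
  by_cases h4 : ‖θ T‖ ^ 2 = 4 * N
  · -- all the conjugates have the same value
    have hall : ∀ θ' ∈ Conj θ, ‖θ' T‖ ^ 2 = 4 * N := by
      intro θ' hθ'
      have h0 : θ (t - (4 * N : ℕ)) = 0 := by
        rw [map_sub, ht θ rfl, h4, map_natCast]; push_cast; ring
      rw [hker θ' hθ', map_sub, ht θ' hθ', map_natCast, sub_eq_zero] at h0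
      exact_mod_cast h0
    have : s.filter (fun θ' => ‖θ' T‖ ≤ 2 * Real.sqrt N) = s := by
      apply Finset.filter_true_of_mem
      intro θ' hθ'
      rw [norm_le_iff (norm_nonneg _), hall θ' ((hs θ').1 hθ')]
    rw [this]
    exact Nat.mul_le_mul_right _ hcC
  · let z : R := Polynomial.aeval (t - (4 * N : ℕ)) P
    have hz : ∀ θ' ∈ Conj θ, θ' z = ((p (‖θ' T‖ ^ 2 - 4 * N) : ℝ) : ℂ) := by
      intro θ' hθ'
      have h1 : θ' z = Polynomial.aeval (θ' (t - (4 * N : ℕ))) P := by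
        simp only [z]
        rw [Polynomial.aeval_def, Polynomial.hom_eval₂, Polynomial.aeval_def]
        congr 1
        exact Subsingleton.elim _ _
      rw [h1, map_sub, ht θ' hθ', map_natCast, ← hp, Polynomial.aeval_def, Polynomial.aeval_def,
        show (((Polynomial.eval₂ (algebraMap ℤ ℝ) (‖θ' T‖ ^ 2 - 4 * N) P : ℝ)) : ℂ) =
          Complex.ofRealHom (Polynomial.eval₂ (algebraMap ℤ ℝ) (‖θ' T‖ ^ 2 - 4 * N) P) from rfl,
        Polynomial.hom_eval₂]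
      congr 1
      simp
    have hz0 : θ z ≠ 0 := by
      rw [hz θ rfl]
      exact_mod_cast hne h4
    have h1 := hprod z hz0
    have h2 : ∏ θ' ∈ s, ‖θ' z‖ ≤ M ^ (s.filter (fun θ' => ‖θ' T‖ ≤ 2 * Real.sqrt N)).card *
        δ ^ (s.filter (fun θ' => ¬ ‖θ' T‖ ≤ 2 * Real.sqrt N)).card := by
      apply prod_le
      · intro i _; exact norm_nonneg _
      · intro θ' hθ' hg
        rw [hz θ' ((hs θ').1 hθ'), Complex.norm_real, Real.norm_eq_abs]
        rw [norm_le_iff (norm_nonneg _)] at hg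
        apply hM
        · have := sq_nonneg ‖θ' T‖
          linarith
        · linarith
      · intro θ' hθ' hg
        rw [hz θ' ((hs θ').1 hθ'), Complex.norm_real, Real.norm_eq_abs]
        rw [norm_le_iff (norm_nonneg _)] at hg
        push Not at hg
        apply hδ
        · linarith
        · have := ks_le hN hq hq64 hε (norm_nonneg _) (h θ' ((hs θ').1 hθ')).bound
          linarith
    have h3 := count_le hM1 hδ0 hδ1 hlt (h1.trans h2)
    rw [Finset.card_filter_add_card_filter_not] at h3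
    exact h3

end Pool.Agent.X298.KS
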