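import Mathlib
import Pool.Agent.X298.KS.Num

namespace Pool.Agent.X298.KS

open Polynomial

variable {R : Type} [CommRing R] [Module.Finite ℤ R] {T S : R} {θ : R →+* ℂ}

theorem case2 (h : ∀ θ' ∈ Conj θ, Known T S 2 θ') :
    (Conj θ).Finite ∧ 59 * (Conj θ).ncard ≤ 100 * (Good T 2 θ).ncard := by
  refine good_of (N := 2) (q := 1.0788) (ε := 0.0462) (M := 8) (δ := 0.0462) (c := 59) (C := 100)
    (by norm_num) h (by norm_num) (by norm_num) (by norm_num) (fun u => u) X (by intro u; simp [map_ofNat])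
    (by norm_num) (by norm_num) (by norm_num) (by norm_num) (by norm_num) ?_ ?_ ?_
  · intro u h1 h2
    push_cast at h1
    rw [abs_le]; constructor <;> linarith
  · intro u h1 h2
    rw [abs_le]; constructor <;> linarith
  · intro h1 h2
    push_cast at h1 h2
    apply h1; linarith

theorem case3 (h : ∀ θ' ∈ Conj θ, Known T S 3 θ') :
    (Conj θ).Finite ∧ 41 * (Conj θ).ncard ≤ 100 * (Good T 3 θ).ncard := by
  refine good_of (N := 3) (q := 1.1277) (ε := 0.1742) (M := 12) (δ := 0.1742) (c := 41) (C := 100)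
    (by norm_num) h (by norm_num) (by norm_num) (by norm_num) (fun u => u) X (by intro u; simp [map_ofNat])
    (by norm_num) (by norm_num) (by norm_num) (by norm_num) (by norm_num) ?_ ?_ ?_
  · intro u h1 h2
    push_cast at h1
    rw [abs_le]; constructor <;> linarith
  · intro u h1 h2
    rw [abs_le]; constructor <;> linarith
  · intro h1 h2
    push_cast at h1 h2
    apply h1; linarith

theorem case4 (h : ∀ θ' ∈ Conj θ, Known T S 4 θ') :
    (Conj θ).Finite ∧ 26 * (Conj θ).ncard ≤ 100 * (Good T 4 θ).ncard := by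
  refine good_of (N := 4) (q := 1.1638) (ε := 0.3711) (M := 16) (δ := 0.3711) (c := 26) (C := 100)
    (by norm_num) h (by norm_num) (by norm_num) (by norm_num) (fun u => u) X (by intro u; simp [map_ofNat])
    (by norm_num) (by norm_num) (by norm_num) (by norm_num) (by norm_num) ?_ ?_ ?_
  · intro u h1 h2
    push_cast at h1
    rw [abs_le]; constructor <;> linarith
  · intro u h1 h2
    rw [abs_le]; constructor <;> linarith
  · intro h1 h2
    push_cast at h1 h2
    apply h1; linarith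

/-- at norm `5`, the value `|θ(T)|² = 21` is outside the range. -/
theorem case5 (h : ∀ θ' ∈ Conj θ, Known T S 5 θ') :
    (Conj θ).Finite ∧ 18 * (Conj θ).ncard ≤ 100 * (Good T 5 θ).ncard := by
  refine good_of (N := 5) (q := 1.1925) (ε := 0.6264) (M := 420) (δ := 1 / 4) (c := 18) (C := 100)
    (by norm_num) h (by norm_num) (by norm_num) (by norm_num) (fun u => u * (u - 1)) (X * (X - 1))
    (by intro u; simp [map_ofNat])
    (by norm_num) (by norm_num) (by norm_num) (by norm_num) (by norm_num) ?_ ?_ ?_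
  · intro u h1 h2
    push_cast at h1
    rw [abs_le]; constructor <;> nlinarith
  · intro u h1 h2
    rw [abs_le]; constructor <;> nlinarith [sq_nonneg (u - 1 / 2)]
  · intro h1 h2
    push_cast at h1 h2
    have h3 := ks_le (N := 5) (q := 1.1925) (ε := 0.6264) (by norm_num) (by norm_num) (by norm_num)
      (by norm_num) (norm_nonneg _) (h θ rfl).bound
    push_cast at h3
    rcases mul_eq_zero.1 h2 with h4 | h4
    · apply h1; linarith
    · linarith

theorem case7 (h : ∀ θ' ∈ Conj θ, Known T S 7 θ') (hex : ‖θ T‖ ^ 2 ≠ 29) :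
    (Conj θ).Finite ∧ 15 * (Conj θ).ncard ≤ 100 * (Good T 7 θ).ncard := by
  refine good_of (N := 7) (q := 1.2372) (ε := 1.288) (M := 23548) (δ := 0.1482) (c := 15) (C := 100)
    (by norm_num) h (by norm_num) (by norm_num) (by norm_num) (fun u => u * (u - 1) ^ 2) (X * (X - 1) ^ 2)
    (by intro u; simp [map_ofNat])
    (by norm_num) (by norm_num) (by norm_num) (by norm_num) (by norm_num) ?_ ?_ ?_
  · intro u h1 h2
    push_cast at h1
    have h3 : (u - 1) ^ 2 ≤ 841 := by nlinarith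
    rw [abs_mul, abs_of_nonneg (sq_nonneg (u - 1))]
    have h4 : |u| ≤ 28 := by rw [abs_le]; constructor <;> linarith
    calc |u| * (u - 1) ^ 2 ≤ 28 * 841 := mul_le_mul h4 h3 (sq_nonneg _) (by norm_num)
      _ ≤ 23548 := by norm_num
  · intro u h1 h2
    rw [abs_of_nonneg (by positivity)]
    -- (u - 1/3)^2 (4/3 - u) ≥ 0
    nlinarith [mul_nonneg (sq_nonneg (u - 1 / 3)) (show (0 : ℝ) ≤ 4 / 3 - u by linarith)]
  · intro h1 h2
    push_cast at h1 h2
    rcases mul_eq_zero.1 h2 with h4 | h4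
    · apply h1; linarith
    · apply hex
      have := pow_eq_zero_iff (two_ne_zero) |>.1 h4
      linarith

theorem case8 (h : ∀ θ' ∈ Conj θ, Known T S 8 θ') (hex : ‖θ T‖ ^ 2 ≠ 33) :
    (Conj θ).Finite ∧ 9 * (Conj θ).ncard ≤ 100 * (Good T 8 θ).ncard := by
  refine good_of (N := 8) (q := 1.2554) (ε := 1.685) (M := 1184832) (δ := 1 / 4) (c := 9) (C := 100)
    (by norm_num) h (by norm_num) (by norm_num) (by norm_num) (fun u => u * (u - 1) ^ 2 * (u - 2))
    (X * (X - 1) ^ 2 * (X - 2)) (by intro u; simp [map_ofNat])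
    (by norm_num) (by norm_num) (by norm_num) (by norm_num) (by norm_num) ?_ ?_ ?_
  · intro u h1 h2
    push_cast at h1
    have h3 : (u - 1) ^ 2 ≤ 1089 := by nlinarith
    rw [abs_mul, abs_mul, abs_of_nonneg (sq_nonneg (u - 1))]
    have h4 : |u| ≤ 32 := by rw [abs_le]; constructor <;> linarith
    have h5 : |u - 2| ≤ 34 := by rw [abs_le]; constructor <;> linarith
    calc |u| * (u - 1) ^ 2 * |u - 2| ≤ 32 * 1089 * 34 :=
          mul_le_mul (mul_le_mul h4 h3 (sq_nonneg _) (by norm_num)) h5 (abs_nonneg _) (by norm_num)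
      _ ≤ 1184832 := by norm_num
  · intro u h1 h2
    have h3 : u * (u - 1) ^ 2 * (u - 2) = ((u - 1) ^ 2 - 1 / 2) ^ 2 - 1 / 4 := by ring
    have h4 : (u - 1) ^ 2 ≤ 1 := by nlinarith
    have h5 := sq_nonneg (u - 1)
    rw [h3, abs_le]; constructor <;> nlinarith [sq_nonneg ((u - 1) ^ 2 - 1 / 2)]
  · intro h1 h2
    push_cast at h1 h2
    have h3 := ks_le (N := 8) (q := 1.2554) (ε := 1.685) (by norm_num) (by norm_num) (by norm_num)
      (by norm_num) (norm_nonneg _) (h θ rfl).bound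
    push_cast at h3
    rcases mul_eq_zero.1 h2 with h4 | h4
    · rcases mul_eq_zero.1 h4 with h5 | h5
      · apply h1; linarith
      · apply hex
        have := pow_eq_zero_iff (two_ne_zero) |>.1 h5
        linarith
    · linarith

theorem case9 (h : ∀ θ' ∈ Conj θ, Known T S 9 θ') (hex : ‖θ T‖ ^ 2 ≠ 37 ∧ ‖θ T‖ ^ 2 ≠ 38) :
    (Conj θ).Finite ∧ 8 * (Conj θ).ncard ≤ 100 * (Good T 9 θ).ncard := by
  refine good_of (N := 9) (q := 1.2717) (ε := 2.1202) (M := 50616) (δ := 0.385) (c := 8) (C := 100)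
    (by norm_num) h (by norm_num) (by norm_num) (by norm_num) (fun u => u * (u - 1) * (u - 2))
    (X * (X - 1) * (X - 2)) (by intro u; simp [map_ofNat])
    (by norm_num) (by norm_num) (by norm_num) (by norm_num) (by norm_num) ?_ ?_ ?_
  · intro u h1 h2
    push_cast at h1
    rw [abs_mul, abs_mul]
    have h4 : |u| ≤ 36 := by rw [abs_le]; constructor <;> linarith
    have h3 : |u - 1| ≤ 37 := by rw [abs_le]; constructor <;> linarith
    have h5 : |u - 2| ≤ 38 := by rw [abs_le]; constructor <;> linarith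
    calc |u| * |u - 1| * |u - 2| ≤ 36 * 37 * 38 :=
          mul_le_mul (mul_le_mul h4 h3 (abs_nonneg _) (by norm_num)) h5 (abs_nonneg _) (by norm_num)
      _ ≤ 50616 := by norm_num
  · intro u h1 h2
    have h3 : u * (u - 1) * (u - 2) = (u - 1) ^ 3 - (u - 1) := by ring
    rw [h3]
    obtain ⟨w, hw⟩ : ∃ w, w = u - 1 := ⟨_, rfl⟩
    rw [← hw]
    have hw1 : -1 < w := by linarith
    have hw2 : w ≤ 1.1202 := by linarith
    rw [abs_le]; constructor
    · nlinarith [mul_nonneg (sq_nonneg (w - 0.57735)) (show (0 : ℝ) ≤ w + 1.1547 by linarith)]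
    · nlinarith [mul_nonneg (sq_nonneg (w + 0.57735)) (show (0 : ℝ) ≤ 1.1547 - w by linarith)]
  · intro h1 h2
    push_cast at h1 h2
    rcases mul_eq_zero.1 h2 with h4 | h4
    · rcases mul_eq_zero.1 h4 with h5 | h5
      · apply h1; linarith
      · apply hex.1; linarith
    · apply hex.2; linarith

theorem case11 (h : ∀ θ' ∈ Conj θ, Known T S 11 θ')
    (hex : ‖θ T‖ ^ 2 ≠ 45 ∧ ‖θ T‖ ^ 2 ≠ 46 ∧ ‖θ T‖ ^ 2 ≠ 47 ∧
      (‖θ T‖ ^ 2 - 44) ^ 2 - 3 * (‖θ T‖ ^ 2 - 44) + 1 ≠ 0) :
    (Conj θ).Finite ∧ 3 * (Conj θ).ncard ≤ 200 * (Good T 11 θ).ncard := by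
  refine good_of (N := 11) (q := 1.29988) (ε := 3.0967) (M := 4280760 ^ 3 * 2069) (δ := 0.4246) (c := 3)
    (C := 200)
    (by norm_num) h (by norm_num) (by norm_num) (by norm_num)
    (fun u => ((u * (u - 3)) * (u * (u - 3) + 2)) ^ 3 * (u * (u - 3) + 1))
    (((X * (X - 3)) * (X * (X - 3) + 2)) ^ 3 * (X * (X - 3) + 1)) (by intro u; simp [map_ofNat])
    (by norm_num) (by norm_num) (by norm_num) (by norm_num) (by norm_num) ?_ ?_ ?_
  · intro u h1 h2
    push_cast at h1
    obtain ⟨v, hv⟩ : ∃ v, v = u * (u - 3) := ⟨_, rfl⟩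
    simp only [← hv]
    have hv0 : 0 ≤ v := by rw [hv]; nlinarith
    have hv1 : v ≤ 2068 := by rw [hv]; nlinarith
    rw [abs_of_nonneg (by positivity)]
    have h3 : v * (v + 2) ≤ 4280760 := by nlinarith
    have h4 : (v * (v + 2)) ^ 3 ≤ 4280760 ^ 3 := pow_le_pow_left₀ (by positivity) h3 3
    exact mul_le_mul h4 (by linarith) (by positivity) (by norm_num)
  · intro u h1 h2
    obtain ⟨w, hw⟩ : ∃ w, w = u * (u - 3) + 1 := ⟨_, rfl⟩
    have hw1 : -1.25 ≤ w := by rw [hw]; nlinarith [sq_nonneg (u - 3 / 2)]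
    have hw2 : w ≤ 1.2995 := by rw [hw]; nlinarith
    have h3 : ((u * (u - 3)) * (u * (u - 3) + 2)) ^ 3 * (u * (u - 3) + 1) = (w ^ 2 - 1) ^ 3 * w := by
      rw [hw]; ring
    simp only [h3]
    rw [abs_mul, abs_pow]
    have hw3 : w ^ 2 ≤ 1.2995 ^ 2 := by nlinarith
    have h4 : |w ^ 2 - 1| ≤ 0.68871 ∨ w ^ 2 ≤ 0.3113 := by
      by_cases h5 : w ^ 2 ≤ 0.3113
      · right; exact h5
      · left; push Not at h5
        rw [abs_le]; constructor
        · linarith
        · nlinarith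
    have hwa : |w| ≤ 1.2995 := by rw [abs_le]; constructor <;> linarith
    rcases h4 with h4 | h4
    · calc |w ^ 2 - 1| ^ 3 * |w| ≤ 0.68871 ^ 3 * 1.2995 :=
            mul_le_mul (pow_le_pow_left₀ (abs_nonneg _) h4 3) hwa (abs_nonneg _) (by norm_num)
        _ ≤ 0.4246 := by norm_num
    · -- |w| ≤ 0.558: (1 - w²)³ |w| ≤ 0.4246
      have h5 : |w ^ 2 - 1| = 1 - |w| ^ 2 := by
        rw [abs_sub_comm, sq_abs, abs_of_nonneg (by linarith [sq_nonneg w])]
      rw [h5]
      have ha : 0 ≤ |w| := abs_nonneg w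
      have hb : |w| ^ 2 ≤ 0.3113 := by rw [sq_abs]; exact h4
      obtain ⟨a, haa⟩ : ∃ a, a = |w| := ⟨_, rfl⟩
      rw [← haa] at ha hb ⊢
      have hc : (1 - a ^ 2) ^ 3 ≤ 1 - a ^ 2 := by
        have e1 : 0 ≤ 1 - a ^ 2 := by linarith
        have e2 : 1 - a ^ 2 ≤ 1 := by nlinarith [sq_nonneg a]
        calc (1 - a ^ 2) ^ 3 ≤ (1 - a ^ 2) ^ 1 := pow_le_pow_of_le_one e1 e2 (by norm_num)
          _ = 1 - a ^ 2 := pow_one _
      calc (1 - a ^ 2) ^ 3 * a ≤ (1 - a ^ 2) * a := mul_le_mul_of_nonneg_right hc ha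
        _ ≤ 0.4246 := by
          nlinarith [mul_nonneg (sq_nonneg (a - 0.57735)) (show (0 : ℝ) ≤ a + 1.1547 by linarith)]
  · intro h1 h2
    push_cast at h1 h2
    obtain ⟨u, hu⟩ : ∃ u, u = ‖θ T‖ ^ 2 - 44 := ⟨_, rfl⟩
    have hu' : ‖θ T‖ ^ 2 - 4 * 11 = u := by rw [hu]; ring
    rw [hu'] at h2
    rw [← hu] at hex
    have h44 : ‖θ T‖ ^ 2 = 44 + u := by rw [hu]; ring
    rw [h44] at h1 hex
    rcases mul_eq_zero.1 h2 with h4 | h4
    · have h5 := pow_eq_zero_iff (three_ne_zero) |>.1 h4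
      rcases mul_eq_zero.1 h5 with h6 | h6
      · rcases mul_eq_zero.1 h6 with h7 | h7
        · apply h1; linarith
        · apply hex.2.2.1; linarith
      · have h8 : (u - 1) * (u - 2) = 0 := by linarith
        rcases mul_eq_zero.1 h8 with h7 | h7
        · apply hex.1; linarith
        · apply hex.2.1; linarith
    · apply hex.2.2.2; linarith

/-- Degree at most two at a prime of norm `2`. -/
theorem deg_two (h : ∀ θ' ∈ Conj θ, Known T S 2 θ') {b c : ℤ}
    (hbc : (‖θ T‖ ^ 2) ^ 2 + b * ‖θ T‖ ^ 2 + c = 0) : ‖θ T‖ ≤ 2 * Real.sqrt 2 := by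
  classical
  have hks : ∀ θ' ∈ Conj θ, ‖θ' T‖ ^ 2 ≤ 4 * 2 + 0.0462 := by
    intro θ' hθ'
    have := ks_le (N := 2) (q := 1.0788) (ε := 0.0462) (by norm_num) (by norm_num) (by norm_num)
      (by norm_num) (norm_nonneg _) (h θ' hθ').bound
    push_cast at this
    exact this
  by_contra hcon
  have h8 : 8 < ‖θ T‖ ^ 2 := by
    by_contra h9
    apply hcon
    have := (norm_le_iff (N := 2) (norm_nonneg (θ T))).2 (by push_cast; linarith)
    push_cast at this
    exact this
  obtain ⟨s, hs, -, htr⟩ := core θ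
  obtain ⟨t, ht⟩ := exists_elt h
  set x0 : ℝ := ‖θ T‖ ^ 2 with hx0
  have hx0' := hks θ rfl
  rw [← hx0] at hx0'
  -- an integer cannot lie strictly between
  have hint : ∀ n : ℤ, (n : ℝ) ≠ x0 := by
    intro n hn
    rw [← hn] at h8 hx0'
    have h1 : 8 < n := by exact_mod_cast h8
    have h2 : (n : ℝ) < 9 := by linarith
    have h3 : n < 9 := by exact_mod_cast h2
    omega
  -- every conjugate is a root
  have hroot : ∀ θ' ∈ Conj θ, (‖θ' T‖ ^ 2) ^ 2 + b * ‖θ' T‖ ^ 2 + c = 0 := by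
    intro θ' hθ'
    have h1 : t ^ 2 + b * t + c ∈ RingHom.ker θ := by
      rw [RingHom.mem_ker, map_add, map_add, map_mul, map_pow, map_intCast, map_intCast, ht θ rfl]
      exact_mod_cast hbc
    have hk : RingHom.ker θ' = RingHom.ker θ := hθ'
    rw [← hk, RingHom.mem_ker, map_add, map_add, map_mul, map_pow, map_intCast, map_intCast, ht θ' hθ'] at h1
    exact_mod_cast h1
  by_cases hall : ∀ θ' ∈ Conj θ, ‖θ' T‖ ^ 2 = x0
  · -- the value is rational
    obtain ⟨q, hq⟩ := htr t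
    have h1 : ∑ θ' ∈ s, θ' t = (s.card : ℂ) * (x0 : ℂ) := by
      rw [Finset.sum_congr rfl (fun θ' hθ' => by rw [ht θ' ((hs θ').1 hθ'), hall θ' ((hs θ').1 hθ')]),
        Finset.sum_const, nsmul_eq_mul]
    rw [h1] at hq
    have hcard : (s.card : ℝ) ≠ 0 := by
      have : θ ∈ s := (hs θ).2 rfl
      have := Finset.card_pos.2 ⟨θ, this⟩
      positivity
    have h2 : (s.card : ℝ) * x0 = q := by exact_mod_cast hq
    have h3 : x0 = ((q / s.card : ℚ) : ℝ) := by
      push_cast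
      field_simp
      linarith
    have h4 : IsIntegral ℤ (q / s.card : ℚ) := by
      refine ⟨X ^ 2 + (C b * X + C c), ?_, ?_⟩
      · apply monic_X_pow_add
        compute_degree
        norm_num
      · rw [h3] at hbc
        have h5 : ((q / s.card : ℚ)) ^ 2 + b * (q / s.card : ℚ) + c = 0 := by exact_mod_cast hbc
        rw [← h5, eval₂_add, eval₂_add, eval₂_mul, eval₂_pow, eval₂_X, eval₂_C, eval₂_C]
        simp only [eq_intCast]
        ring
    obtain ⟨n, hn⟩ := IsIntegrallyClosed.isIntegral_iff.1 h4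
    apply hint n
    rw [h3, ← hn]
    simp
  · push Not at hall
    obtain ⟨θ', hθ', hne⟩ := hall
    have h1 := hroot θ' hθ'
    have h2 := hks θ' hθ'
    obtain ⟨x1, hx1⟩ : ∃ x1 : ℝ, x1 = ‖θ' T‖ ^ 2 := ⟨_, rfl⟩
    have hx1n : 0 ≤ x1 := by rw [hx1]; positivity
    rw [← hx1] at h1 h2 hne
    have h3 : x1 + x0 = -b := by
      have h4 : (x1 - x0) * (x1 + x0 + b) = 0 := by
        calc _ = (x1 ^ 2 + b * x1 + c) - (x0 ^ 2 + b * x0 + c) := by ring
          _ = 0 := by rw [h1, hbc, sub_zero]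
      rcases mul_eq_zero.1 h4 with h5 | h5
      · exact absurd (sub_eq_zero.1 h5) hne
      · linarith
    have h4 : (8 - x0) * (8 - x1) = ((64 + 8 * b + c : ℤ) : ℝ) := by
      push_cast
      have : x0 * x1 = c := by
        have : x1 = -b - x0 := by linarith
        rw [this]; linarith
      calc (8 - x0) * (8 - x1) = 64 - 8 * (x1 + x0) + x0 * x1 := by ring
        _ = _ := by rw [h3, this]; ring
    have h5 : |((64 + 8 * b + c : ℤ) : ℝ)| < 1 := by
      rw [← h4, abs_mul]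
      have e1 : |8 - x0| ≤ 0.0462 := by rw [abs_le]; constructor <;> linarith
      have e2 : |8 - x1| ≤ 8 := by rw [abs_le]; constructor <;> linarith
      calc |8 - x0| * |8 - x1| ≤ 0.0462 * 8 := mul_le_mul e1 e2 (abs_nonneg _) (by norm_num)
        _ < 1 := by norm_num
    have h6 : 64 + 8 * b + c = 0 := by
      have : |64 + 8 * b + c| < 1 := by exact_mod_cast h5
      exact Int.abs_lt_one_iff.1 this
    rw [h6, Int.cast_zero] at h4
    rcases mul_eq_zero.1 h4 with h7 | h7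
    · linarith
    · apply hint (-b - 8)
      push_cast
      linarith

omit [Module.Finite ℤ R] in
theorem rat_value (N : ℕ) (h : Known T S N θ) (hN : N = 2 ∨ N = 3 ∨ N = 4 ∨ N = 5) {n : ℤ}
    (hn : ‖θ T‖ ^ 2 = n) : ‖θ T‖ ≤ 2 * Real.sqrt N := by
  rw [norm_le_iff (norm_nonneg _), hn]
  have hx := h.bound
  have key : ∀ q ε : ℝ, 1 ≤ N → 1 ≤ q → (N : ℝ) ^ 7 ≤ q ^ 64 → (N : ℝ) * (q - 1 / q) ^ 2 ≤ ε → ε < 1 →
      (n : ℝ) ≤ 4 * N := by
    intro q ε h1 h2 h3 h4 h5
    have h6 := ks_le h1 h2 h3 h4 (norm_nonneg _) hx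
    rw [hn] at h6
    have h7 : (n : ℝ) < ((4 * N + 1 : ℤ) : ℝ) := by push_cast; linarith
    have h8 : n < 4 * N + 1 := by exact_mod_cast h7
    have h9 : n ≤ 4 * N := by omega
    exact_mod_cast h9
  rcases hN with rfl | rfl | rfl | rfl
  · exact key 1.0788 0.0462 (by norm_num) (by norm_num) (by norm_num) (by norm_num) (by norm_num)
  · exact key 1.1277 0.1742 (by norm_num) (by norm_num) (by norm_num) (by norm_num) (by norm_num)
  · exact key 1.1638 0.3711 (by norm_num) (by norm_num) (by norm_num) (by norm_num) (by norm_num)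
  · exact key 1.1925 0.6264 (by norm_num) (by norm_num) (by norm_num) (by norm_num) (by norm_num)

omit [Module.Finite ℤ R] in
theorem int_eigen (N : ℕ) (h : Known T S N θ) (hN : N ∈ [2, 3, 4, 5, 7, 8, 9, 11, 13, 16, 17, 25, 31]) {a : ℤ}
    (ha : θ T = a) : ‖θ T‖ ≤ 2 * Real.sqrt N := by
  rw [norm_le_iff (norm_nonneg _)]
  have hx := h.bound
  have hsq : ‖θ T‖ ^ 2 = ((|a| ^ 2 : ℤ) : ℝ) := by
    rw [ha, Complex.norm_intCast]; push_cast; ring
  have key : ∀ (q ε : ℝ) (k : ℤ), 1 ≤ N → 1 ≤ q → (N : ℝ) ^ 7 ≤ q ^ 64 → (N : ℝ) * (q - 1 / q) ^ 2 ≤ ε →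
      0 ≤ k → 4 * (N : ℝ) + ε < (k + 1) ^ 2 → (k : ℝ) ^ 2 ≤ 4 * N → ‖θ T‖ ^ 2 ≤ 4 * N := by
    intro q ε k h1 h2 h3 h4 hk h5 h6
    have h7 := ks_le h1 h2 h3 h4 (norm_nonneg _) hx
    rw [hsq] at h7 ⊢
    have h8 : ((|a| ^ 2 : ℤ) : ℝ) < (((k + 1) ^ 2 : ℤ) : ℝ) := by push_cast at h7 ⊢; linarith
    have h9 : |a| ^ 2 < (k + 1) ^ 2 := by exact_mod_cast h8
    have h10 : |a| < k + 1 := lt_of_pow_lt_pow_left₀ 2 (by omega) h9
    have h11 : |a| ≤ k := by omega
    have h12 : |a| ^ 2 ≤ k ^ 2 := pow_le_pow_left₀ (abs_nonneg a) h11 2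
    have h13 : ((|a| ^ 2 : ℤ) : ℝ) ≤ ((k ^ 2 : ℤ) : ℝ) := by exact_mod_cast h12
    push_cast at h13 ⊢
    linarith
  simp only [List.mem_cons, List.not_mem_nil, or_false] at hN
  rcases hN with rfl | rfl | rfl | rfl | rfl | rfl | rfl | rfl | rfl | rfl | rfl | rfl | rfl
  · exact key 1.0788 0.0462 2 (by norm_num) (by norm_num) (by norm_num) (by norm_num) (by norm_num) (by norm_num) (by norm_num)
  · exact key 1.1277 0.1742 3 (by norm_num) (by norm_num) (by norm_num) (by norm_num) (by norm_num) (by norm_num) (by norm_num)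
  · exact key 1.1638 0.3711 4 (by norm_num) (by norm_num) (by norm_num) (by norm_num) (by norm_num) (by norm_num) (by norm_num)
  · exact key 1.1925 0.6264 4 (by norm_num) (by norm_num) (by norm_num) (by norm_num) (by norm_num) (by norm_num) (by norm_num)
  · exact key 1.2372 1.288 5 (by norm_num) (by norm_num) (by norm_num) (by norm_num) (by norm_num) (by norm_num) (by norm_num)
  · exact key 1.2554 1.685 5 (by norm_num) (by norm_num) (by norm_num) (by norm_num) (by norm_num) (by norm_num) (by norm_num)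
  · exact key 1.2717 2.121 6 (by norm_num) (by norm_num) (by norm_num) (by norm_num) (by norm_num) (by norm_num) (by norm_num)
  · exact key 1.2999 3.098 6 (by norm_num) (by norm_num) (by norm_num) (by norm_num) (by norm_num) (by norm_num) (by norm_num)
  · exact key 1.3239 4.203 7 (by norm_num) (by norm_num) (by norm_num) (by norm_num) (by norm_num) (by norm_num) (by norm_num)
  · exact key 1.3543 6.07 8 (by norm_num) (by norm_num) (by norm_num) (by norm_num) (by norm_num) (by norm_num) (by norm_num)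
  · exact key 1.3633 6.743 8 (by norm_num) (by norm_num) (by norm_num) (by norm_num) (by norm_num) (by norm_num) (by norm_num)
  · exact key 1.4221 12.93 10 (by norm_num) (by norm_num) (by norm_num) (by norm_num) (by norm_num) (by norm_num) (by norm_num)
  · exact key 1.4559 18.34 11 (by norm_num) (by norm_num) (by norm_num) (by norm_num) (by norm_num) (by norm_num) (by norm_num)

end Pool.Agent.X298.KS
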